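import Pool.Agent.Helper38.ND.Goals
import Pool.Agent.Helper17.PP0.Parts

/-!
# Project ND, packet W_MT0: the abstract moment theorem with weights
-/

set_option autoImplicit false

namespace Pool.Agent.Helper14.ND

open Finset Pool.Agent.Helper17.PP Pool.Agent.Helper17.PP0 Pool.Agent.Helper38.ND

section steps

variable {p : ℕ} [Fact p.Prime] {B B₀ k U Λ C : Type} [Field k] [Fintype k]
    [Algebra (ZMod p) k] [AddCommGroup U] [Module k U] [Fintype U] [AddCommGroup Λ] [Module k Λ]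
    [Fintype Λ] [AddCommGroup C] (S : Sys p B B₀ k U Λ C)

open Classical in
theorem step1w (hCNT : C_CNT) (E j₀ s : ℕ) (v : Finset B → ℝ) (hv : ∀ b, 0 ≤ v b)
    (P : Finset B) :
    ∑ b ∈ P.powerset with (S.Fam b ∧ S.Bad b), v b ≤
      ∑ b ∈ P.powerset with (∃ q ∈ b, th E s < S.bl q), v b +
      ∑ b ∈ P.powerset with (S.Fam b ∧ ∃ (x : U) (c : B → k), S.IsSol b x c ∧
        ¬ (x = 0 ∧ c = 0) ∧ ∀ q, c q ≠ 0 → S.bl q < j₀), v b +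
      ∑ b ∈ P.powerset with (∃ q ∈ b, ∃ q' ∈ b, q ≠ q' ∧ S.bl q = S.bl q' ∧ j₀ ≤ S.bl q),
        v b +
      ∑ b ∈ P.powerset with (∃ q ∈ b, j₀ ≤ S.bl q ∧ ∃ D ⊆ b, q ∉ D ∧
        (∀ q' ∈ D, S.bl q' ≤ th E (S.bl q)) ∧ 2 ^ tb E (S.bl q) ≤ S.nm D),
        v b +
      ∑ b ∈ (P.filter fun q ↦ S.bl q ≤ th E s).powerset with (S.Fam b ∧
        ∃ q, S.Wt E b q ∧ j₀ ≤ S.bl q ∧ Fintype.card k - 1 ≤ S.cnt₂ E b q),
        v b := by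
  have hlast : ∑ b ∈ (P.filter fun q ↦ S.bl q ≤ th E s).powerset with (S.Fam b ∧
        ∃ q, S.Wt E b q ∧ j₀ ≤ S.bl q ∧ Fintype.card k - 1 ≤ S.cnt₂ E b q),
        v b =
      ∑ b ∈ P.powerset with ((∀ q ∈ b, S.bl q ≤ th E s) ∧ (S.Fam b ∧
        ∃ q, S.Wt E b q ∧ j₀ ≤ S.bl q ∧ Fintype.card k - 1 ≤ S.cnt₂ E b q)),
        v b := by
    refine Finset.sum_congr ?_ fun _ _ ↦ rfl
    ext b
    simp only [mem_filter, mem_powerset]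
    constructor
    · rintro ⟨h1, h2⟩
      exact ⟨fun q hq ↦ (mem_filter.1 (h1 hq)).1, fun q hq ↦ (mem_filter.1 (h1 hq)).2, h2⟩
    · rintro ⟨h1, h2, h3⟩
      exact ⟨fun q hq ↦ mem_filter.2 ⟨h1 hq, h2 q hq⟩, h3⟩
  rw [hlast]
  simp only [Finset.sum_filter, ← Finset.sum_add_distrib]
  refine Finset.sum_le_sum fun b hb ↦ ?_
  have he : 0 ≤ v b := hv b
  have hi : ∀ (q : Prop) [Decidable q], 0 ≤ (if q then v b else 0) := by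
    intro q _
    split_ifs
    · exact he
    · exact le_rfl
  by_cases hA : S.Fam b ∧ S.Bad b
  swap
  · rw [if_neg hA]
    have := hi (∃ q ∈ b, th E s < S.bl q)
    have := hi (S.Fam b ∧ ∃ (x : U) (c : B → k), S.IsSol b x c ∧
        ¬ (x = 0 ∧ c = 0) ∧ ∀ q, c q ≠ 0 → S.bl q < j₀)
    have := hi (∃ q ∈ b, ∃ q' ∈ b, q ≠ q' ∧ S.bl q = S.bl q' ∧ j₀ ≤ S.bl q)
    have := hi (∃ q ∈ b, j₀ ≤ S.bl q ∧ ∃ D ⊆ b, q ∉ D ∧
        (∀ q' ∈ D, S.bl q' ≤ th E (S.bl q)) ∧ 2 ^ tb E (S.bl q) ≤ S.nm D)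
    have := hi ((∀ q ∈ b, S.bl q ≤ th E s) ∧ (S.Fam b ∧
        ∃ q, S.Wt E b q ∧ j₀ ≤ S.bl q ∧ Fintype.card k - 1 ≤ S.cnt₂ E b q))
    linarith
  rw [if_pos hA]
  by_cases h6 : ∃ q ∈ b, th E s < S.bl q
  · rw [if_pos h6]
    have := hi (S.Fam b ∧ ∃ (x : U) (c : B → k), S.IsSol b x c ∧
        ¬ (x = 0 ∧ c = 0) ∧ ∀ q, c q ≠ 0 → S.bl q < j₀)
    have := hi (∃ q ∈ b, ∃ q' ∈ b, q ≠ q' ∧ S.bl q = S.bl q' ∧ j₀ ≤ S.bl q)
    have := hi (∃ q ∈ b, j₀ ≤ S.bl q ∧ ∃ D ⊆ b, q ∉ D ∧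
        (∀ q' ∈ D, S.bl q' ≤ th E (S.bl q)) ∧ 2 ^ tb E (S.bl q) ≤ S.nm D)
    have := hi ((∀ q ∈ b, S.bl q ≤ th E s) ∧ (S.Fam b ∧
        ∃ q, S.Wt E b q ∧ j₀ ≤ S.bl q ∧ Fintype.card k - 1 ≤ S.cnt₂ E b q))
    linarith
  rw [if_neg h6]
  by_cases h0 : S.Fam b ∧ ∃ (x : U) (c : B → k), S.IsSol b x c ∧
        ¬ (x = 0 ∧ c = 0) ∧ ∀ q, c q ≠ 0 → S.bl q < j₀
  · rw [if_pos h0]
    have := hi (∃ q ∈ b, ∃ q' ∈ b, q ≠ q' ∧ S.bl q = S.bl q' ∧ j₀ ≤ S.bl q)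
    have := hi (∃ q ∈ b, j₀ ≤ S.bl q ∧ ∃ D ⊆ b, q ∉ D ∧
        (∀ q' ∈ D, S.bl q' ≤ th E (S.bl q)) ∧ 2 ^ tb E (S.bl q) ≤ S.nm D)
    have := hi ((∀ q ∈ b, S.bl q ≤ th E s) ∧ (S.Fam b ∧
        ∃ q, S.Wt E b q ∧ j₀ ≤ S.bl q ∧ Fintype.card k - 1 ≤ S.cnt₂ E b q))
    linarith
  rw [if_neg h0]
  by_cases h2 : ∃ q ∈ b, ∃ q' ∈ b, q ≠ q' ∧ S.bl q = S.bl q' ∧ j₀ ≤ S.bl q
  · rw [if_pos h2]
    have := hi (∃ q ∈ b, j₀ ≤ S.bl q ∧ ∃ D ⊆ b, q ∉ D ∧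
        (∀ q' ∈ D, S.bl q' ≤ th E (S.bl q)) ∧ 2 ^ tb E (S.bl q) ≤ S.nm D)
    have := hi ((∀ q ∈ b, S.bl q ≤ th E s) ∧ (S.Fam b ∧
        ∃ q, S.Wt E b q ∧ j₀ ≤ S.bl q ∧ Fintype.card k - 1 ≤ S.cnt₂ E b q))
    linarith
  rw [if_neg h2]
  by_cases h5 : ∃ q ∈ b, j₀ ≤ S.bl q ∧ ∃ D ⊆ b, q ∉ D ∧
        (∀ q' ∈ D, S.bl q' ≤ th E (S.bl q)) ∧ 2 ^ tb E (S.bl q) ≤ S.nm D
  · rw [if_pos h5]
    have := hi ((∀ q ∈ b, S.bl q ≤ th E s) ∧ (S.Fam b ∧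
        ∃ q, S.Wt E b q ∧ j₀ ≤ S.bl q ∧ Fintype.card k - 1 ≤ S.cnt₂ E b q))
    linarith
  rw [if_neg h5, if_pos]
  · linarith
  refine ⟨fun q hq ↦ not_lt.1 fun h ↦ h6 ⟨q, hq, h⟩, hA.1, ?_⟩
  refine hCNT p B B₀ k U Λ C S E j₀ b hA.2 (fun x c hx hne ↦ ?_) fun q hq hqs hqb ↦ ?_
  · by_contra hh
    push Not at hh
    exact h0 ⟨hA.1, x, c, hx, hne, fun q hq ↦ hh q hq⟩
  · refine ⟨hq, hqs, fun q' hq' hne _ he ↦ h2 ⟨q, hq, q', hq', Ne.symm hne, he.symm, hqb⟩,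
      fun D hD hqD hDb ↦ ?_⟩
    by_contra hh
    exact h5 ⟨q, hq, hqb, D, hD, hqD, hDb, not_lt.1 hh⟩

open Classical in
theorem step4w (E j₀ s : ℕ) (P : Finset B) (w : ℝ → ℝ) (X : ℝ)
    (hw : ∀ b : Finset B, 0 ≤ w (S.nm b / X)) (hP : ∀ q ∈ P, S.bl q ≤ th E s) :
    ((Fintype.card k : ℝ) - 1) * ∑ b ∈ P.powerset with (S.Fam b ∧
        ∃ q, S.Wt E b q ∧ j₀ ≤ S.bl q ∧ Fintype.card k - 1 ≤ S.cnt₂ E b q),
        w (S.nm b / X) ≤ ∑ j ∈ Ico j₀ (th E s + 1), T1w S w E P X j := by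
  have hA : ((Fintype.card k : ℝ) - 1) * ∑ b ∈ P.powerset with (S.Fam b ∧
        ∃ q, S.Wt E b q ∧ j₀ ≤ S.bl q ∧ Fintype.card k - 1 ≤ S.cnt₂ E b q),
        w (S.nm b / X) ≤
      ∑ b ∈ P.powerset with S.Fam b,
        (∑ q ∈ b with (S.Wt E b q ∧ j₀ ≤ S.bl q), (S.cnt E b q : ℝ)) *
          w (S.nm b / X) := by
    rw [Finset.mul_sum]
    refine (Finset.sum_le_sum fun b hb ↦ ?_).trans (Finset.sum_le_sum_of_subset_of_nonneg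
      (s := P.powerset.filter fun b ↦ (S.Fam b ∧
        ∃ q, S.Wt E b q ∧ j₀ ≤ S.bl q ∧ Fintype.card k - 1 ≤ S.cnt₂ E b q)) ?_ ?_)
    · rw [mem_filter] at hb
      exact mul_le_mul_of_nonneg_right (step2 (Λ := Λ) S E j₀ b hb.2.2) (hw b)
    · intro b hb
      rw [mem_filter] at hb ⊢
      exact ⟨hb.1, hb.2.1⟩
    · intro b _ _
      exact mul_nonneg (Finset.sum_nonneg fun _ _ ↦ Nat.cast_nonneg _) (hw b)
  refine hA.trans (le_of_eq ?_)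
  unfold T1w
  rw [Finset.sum_comm]
  refine Finset.sum_congr rfl fun b hb ↦ ?_
  rw [mem_filter, mem_powerset] at hb
  have hbl : ∀ q ∈ b, S.bl q < th E s + 1 := fun q hq ↦ Nat.lt_succ_of_le (hP q (hb.1 hq))
  rw [Finset.sum_mul]
  exact S.sum_blocks b (fun q ↦ S.Wt E b q) j₀ (th E s + 1)
    (fun q ↦ (S.cnt E b q : ℝ) * w (S.nm b / X)) hbl

end steps

theorem fin₀w (hCNT : C_CNT) (hEX0 : Z_EX0) (hEX2 : Z_EX2) (hEX5 : Z_EX5) (hEX6 : Z_EX6)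
    (hCOR : W_COR) : MT₀W := by
  classical
  intro p _ B B₀ k U Λ C _ _ _ _ _ _ _ _ _ _ _ S ψ g K hyp w hw ε hε
  obtain ⟨c, hc0, hc⟩ := hw.dom
  obtain ⟨K₅, hK₅⟩ := hEX2 p B B₀ k U Λ C S ψ g K hyp
  have hK : 1 ≤ K := hyp.one_le
  set E := 2 * K * (K + 1) with hE
  have hE1 : 1 ≤ E := by
    rw [hE]; nlinarith
  set Q : ℝ := (Fintype.card k : ℝ) with hQ
  have hQ2 : 2 ≤ Q := by
    rw [hQ]; exact_mod_cast Fintype.one_lt_card (α := k)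
  set ρ : ℝ := (Fintype.card U / Fintype.card Λ : ℝ) with hρ
  have hρ0 : 0 ≤ ρ := by positivity
  set e : ℝ := ε / (4 * c + 2) with he
  have he0 : 0 < e := by positivity
  -- the choice of `j₀`
  obtain ⟨jE, hjE⟩ := le_th_of_large E hE1
  obtain ⟨j5, hj5⟩ := hEX5 p B B₀ k U Λ C S ψ g K hyp E e hE1 he0
  obtain ⟨j1, hj1⟩ := hCOR p B B₀ k U Λ C S ψ g K hyp w hw e he0
  obtain ⟨n5, hn5⟩ := exists_nat_ge (K₅ / e : ℝ)
  set j₀ := 2 + jE + j5 + j1 + n5 with hj₀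
  have hK5 : (K₅ : ℝ) / j₀ ≤ e := by
    rw [div_le_iff₀ (by positivity)]
    rw [div_le_iff₀ he0] at hn5
    have : (n5 : ℝ) ≤ j₀ := by exact_mod_cast (by omega : n5 ≤ j₀)
    nlinarith
  have hth : ∀ j, j₀ ≤ j → j ≤ th E j := fun j hj ↦ hjE j (by omega)
  -- the choice of `X₀`
  obtain ⟨XC, hXC⟩ := hj1 j₀ (by omega)
  obtain ⟨X0, hX0⟩ := hEX0 p B B₀ k U Λ C S ψ g K hyp j₀ e he0
  obtain ⟨X6, hX6⟩ := hEX6 p B B₀ k U Λ C S ψ g K hyp E e hE1 he0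
  refine ⟨max (2 ^ (9 + j₀ * j₀)) (max XC (max X0 X6)), fun X hX P ↦ ?_⟩
  have hXp : (2 : ℝ) ^ (9 + j₀ * j₀) ≤ X := (le_max_left _ _).trans hX
  have hXX := (le_max_right _ _).trans hX
  have hXXC : XC ≤ X := (le_max_left _ _).trans hXX
  have hXX' := (le_max_right _ _).trans hXX
  have hXX0 : X0 ≤ X := (le_max_left _ _).trans hXX'
  have hXX6 : X6 ≤ X := (le_max_right _ _).trans hXX'
  have hLX := le_lg hXp
  have hX1 : 1 ≤ X := le_trans (one_le_pow₀ (by norm_num)) hXp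
  have hXpos : 0 < X := by linarith
  set s := Nat.sqrt (lg X) with hs
  have hj₀s : j₀ ≤ s := by
    rw [hs, Nat.le_sqrt]; omega
  have hgX : 1 ≤ g X := hyp.g_one X
  have hXg : 0 ≤ X * g X := by positivity
  set P' := P.filter fun q ↦ S.bl q ≤ th E s with hP'
  have hP'bl : ∀ q ∈ P', S.bl q ≤ th E s := fun q hq ↦ (mem_filter.1 hq).2
  have hnm : ∀ b : Finset B, 0 ≤ (S.nm b / X : ℝ) := fun b ↦ by positivity
  have hwn : ∀ b : Finset B, 0 ≤ w (S.nm b / X) := fun b ↦ hw.nonneg _ (hnm b)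
  -- comparison of the weights
  have hcmp : ∀ (T : Finset (Finset B)) (x : ℝ), ∑ b ∈ T, Real.exp (-(S.nm b / X)) ≤ x →
      ∑ b ∈ T, w (S.nm b / X) ≤ c * x := by
    intro T x hT
    calc ∑ b ∈ T, w (S.nm b / X) ≤ ∑ b ∈ T, c * Real.exp (-(S.nm b / X)) :=
          Finset.sum_le_sum fun b _ ↦ hc _ (hnm b)
      _ = c * ∑ b ∈ T, Real.exp (-(S.nm b / X)) := by rw [Finset.mul_sum]
      _ ≤ c * x := mul_le_mul_of_nonneg_left hT hc0.le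
  -- the exceptional sets
  have b1 := step1w (Λ := Λ) S hCNT E j₀ s (fun b ↦ w (S.nm b / X)) hwn P
  have b6 := hcmp _ _ (hX6 X hXX6 P)
  have b0 := hcmp _ _ (hX0 X hXX0 P)
  have b2 := hcmp _ _ ((hK₅ j₀ X P (by omega) hX1).trans (mul_le_mul_of_nonneg_right hK5 hXg))
  have b5 := hcmp _ _ (hj5 j₀ (by omega) X hX1 P)
  -- the good sets
  have b4 := step4w (Λ := Λ) S E j₀ s P' w X hwn hP'bl
  obtain ⟨c1, c2⟩ := hXC X hXXC P' hP'bl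
  set F : ℝ := ∑ b ∈ P'.powerset with S.Fam b, w (S.nm b / X) with hF
  have hsT : s ≤ th E s + 1 := by
    have := hth s hj₀s
    omega
  have hS : ∑ j ∈ Ico j₀ (th E s + 1), T1w S w E P' X j ≤
      e * (X * g X) + (ρ * (Q * F) + e * (X * g X)) := by
    rw [← Finset.sum_Ico_consecutive _ hj₀s hsT]
    exact add_le_add c1 c2
  set G : ℝ := ∑ b ∈ P'.powerset with (S.Fam b ∧
        ∃ q, S.Wt E b q ∧ j₀ ≤ S.bl q ∧ Fintype.card k - 1 ≤ S.cnt₂ E b q),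
        w (S.nm b / X) with hG
  have hgood : (Q - 1) * G ≤ (ρ * Q) * F + 2 * e * (X * g X) := by
    refine b4.trans (hS.trans (le_of_eq ?_))
    ring
  have hG2 : G ≤ ρ * (Q / (Q - 1)) * F + 2 * e * (X * g X) := by
    have hQ1 : 0 < Q - 1 := by linarith
    have h0 : 0 ≤ 2 * e * (X * g X) := by positivity
    have h1 : G ≤ ((ρ * Q) * F + 2 * e * (X * g X)) / (Q - 1) := by
      rw [le_div_iff₀ hQ1]; linarith
    refine h1.trans ?_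
    rw [add_div]
    refine add_le_add (le_of_eq ?_) (div_le_self h0 (by linarith))
    field_simp
  have hFF : F ≤ ∑ b ∈ P.powerset with S.Fam b, w (S.nm b / X) := by
    refine Finset.sum_le_sum_of_subset_of_nonneg ?_ fun b _ _ ↦ hwn b
    intro b hb
    rw [mem_filter, mem_powerset] at hb ⊢
    exact ⟨hb.1.trans (Finset.filter_subset _ _), hb.2⟩
  have hθ : 0 ≤ ρ * (Q / (Q - 1)) := by
    have hQ1 : 0 < Q - 1 := by linarith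
    positivity
  have hG3 := hG2.trans (add_le_add (mul_le_mul_of_nonneg_left hFF hθ) le_rfl)
  have hWe : (4 * c + 2) * e = ε := by
    rw [he]; field_simp
  refine b1.trans ?_
  have b1' := add_le_add (add_le_add (add_le_add (add_le_add b6 b0) b2) b5) hG3
  refine b1'.trans (le_of_eq ?_)
  rw [← hWe]
  ring

/-- **W_MT0**. -/
theorem w_mt0 : W_MT0 :=
  fin₀w Pool.Agent.Helper28.PP.c_cnt
    EX0.c_ex0
    (EX2.c_ex2 Pool.Agent.Helper22.PP.c_dec)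
    (EX5.c_ex5 Pool.Agent.Helper22.PP.c_dec)
    (EX6.c_ex6 Pool.Agent.Helper22.PP.c_dec)

end Pool.Agent.Helper14.ND
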